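import Pool.Agent.H903HT.Stmts2

/-!
Project H903-HT, task S5: finite multiplicity (abstract form).
-/

set_option autoImplicit false

open MeasureTheory Filter Topology Set

namespace Pool.Agent.H903HT

theorem finite_of_separated2 {X Y : Type} [PseudoMetricSpace X] [PseudoMetricSpace Y]
    {S : Set X} {T : Set Y} (hS : TotallyBounded S) (hT : TotallyBounded T)
    {ι : Type} (x : ι → X) (y : ι → Y) (hx : ∀ i, x i ∈ S) (hy : ∀ i, y i ∈ T) (δ : ℝ)
    (hδ : 0 < δ) (hsep : ∀ i j, i ≠ j → δ ≤ dist (x i) (x j) ∨ δ ≤ dist (y i) (y j)) :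
    Finite ι := by
  obtain ⟨s, hs, hss⟩ := Metric.totallyBounded_iff.1 hS (δ/2) (by linarith)
  obtain ⟨t, ht, htt⟩ := Metric.totallyBounded_iff.1 hT (δ/2) (by linarith)
  have h1 : ∀ i, ∃ p : s, dist (x i) p < δ / 2 := by
    intro i
    have := hss (hx i)
    simp only [mem_iUnion, Metric.mem_ball] at this
    obtain ⟨p, hp, h⟩ := this
    exact ⟨⟨p, hp⟩, h⟩
  have h2 : ∀ i, ∃ p : t, dist (y i) p < δ / 2 := by
    intro i
    have := htt (hy i)
    simp only [mem_iUnion, Metric.mem_ball] at this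
    obtain ⟨p, hp, h⟩ := this
    exact ⟨⟨p, hp⟩, h⟩
  choose p hp using h1
  choose q hq using h2
  have := hs.to_subtype
  have := ht.to_subtype
  refine Finite.of_injective (fun i => (p i, q i)) ?_
  intro i j hij
  by_contra hne
  have e1 : p i = p j := congrArg Prod.fst hij
  have e2 : q i = q j := congrArg Prod.snd hij
  rcases hsep i j hne with h | h
  · have h3 := hp j
    rw [← e1] at h3
    have := dist_triangle_right (x i) (x j) (p i : X)
    linarith [hp i]
  · have h3 := hq j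
    rw [← e2] at h3
    have := dist_triangle_right (y i) (y j) (q i : Y)
    linarith [hq i]

theorem taskFinite : TaskFinite := by
  intro H0 H1 H2 _ _ _ _ _ _ _ _ _ Γ0 Γ1 V0 V2 hcx hT0 hT2 ι b l c C hc hb hl hex
  choose v F g k h1 h2 h3 h4 h5 h6 h7 using hex
  have hnb : ∀ i, ‖b i‖ = 1 := fun i => hb.1 i
  -- pairings
  have pv : ∀ i j, inner ℂ (F j) (b i) = inner ℂ (v j) (v i) := fun i j => h1 i _ (h2 j)
  have pg : ∀ i j, inner ℂ (g i) (g j) = inner ℂ (b i) (k j) := fun i j => h4 j _ (h3 i)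
  have pFk : ∀ i j, inner ℂ (F i) (k j) = 0 := by
    intro i j
    have := h4 j _ (hcx _ _ (h2 i))
    simpa using this.symm
  have pg' : ∀ i j, inner ℂ (g j) (g i) = inner ℂ (k j) (b i) := by
    intro i j
    rw [← inner_conj_symm (g j) (g i), pg i j, inner_conj_symm]
  have psum : ∀ i j, inner ℂ (v j) (v i) + inner ℂ (g j) (g i) = (l j : ℂ) * inner ℂ (b j) (b i) := by
    intro i j
    rw [← pv, pg', ← inner_add_left, ← h5 j, inner_smul_left]
    simp
  have hl0 : ∀ i, 0 < l i := fun i => lt_of_lt_of_le hc (hl i).1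
  -- norms
  have nvg : ∀ i, ‖v i‖ ^ 2 + ‖g i‖ ^ 2 = l i := by
    intro i
    have h := congrArg Complex.re (psum i i)
    rw [Complex.add_re] at h
    have e1 : (inner ℂ (v i) (v i) : ℂ).re = ‖v i‖ ^ 2 := by
      have := inner_self_eq_norm_sq (𝕜 := ℂ) (v i); simpa using this
    have e2 : (inner ℂ (g i) (g i) : ℂ).re = ‖g i‖ ^ 2 := by
      have := inner_self_eq_norm_sq (𝕜 := ℂ) (g i); simpa using this
    have e3 : (inner ℂ (b i) (b i) : ℂ) = 1 := by
      rw [inner_self_eq_norm_sq_to_K, hnb]; simp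
    rw [e1, e2, e3] at h
    simpa using h
  have nFk : ∀ i, ‖F i‖ ^ 2 + ‖k i‖ ^ 2 = l i ^ 2 := by
    intro i
    have h := norm_add_sq (𝕜 := ℂ) (F i) (k i)
    rw [← h5 i, pFk, norm_smul, hnb] at h
    simp at h
    linarith
  -- separation
  have sep : ∀ i j, i ≠ j → ‖v i - v j‖ ^ 2 + ‖g i - g j‖ ^ 2 = l i + l j := by
    intro i j hij
    have hz : inner ℂ (b i) (b j) = 0 := hb.2 hij
    have h := congrArg Complex.re (psum j i)
    rw [hz, mul_zero, Complex.add_re, Complex.zero_re] at h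
    have a1 := norm_sub_sq (𝕜 := ℂ) (v i) (v j)
    have a2 := norm_sub_sq (𝕜 := ℂ) (g i) (g j)
    have a3 := nvg i
    have a4 := nvg j
    simp only [RCLike.re_to_complex] at a1 a2
    rw [a1, a2]
    linarith
  by_cases hne : IsEmpty ι
  · infer_instance
  have hCpos : 0 < C := by
    rw [not_isEmpty_iff] at hne
    obtain ⟨i⟩ := hne
    exact lt_of_lt_of_le (hl0 i) (hl i).2
  set M : ℝ := Real.sqrt (C + C ^ 2) + 1 with hM
  have hsq : 0 ≤ Real.sqrt (C + C ^ 2) := Real.sqrt_nonneg _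
  have hMpos : 0 < M := by linarith
  have hM2 : C + C ^ 2 ≤ M ^ 2 := by
    have : Real.sqrt (C + C ^ 2) ^ 2 = C + C ^ 2 := Real.sq_sqrt (by positivity)
    nlinarith
  have hMn : ‖((M⁻¹ : ℝ) : ℂ)‖ = M⁻¹ := by
    rw [Complex.norm_real, Real.norm_of_nonneg (inv_nonneg.2 hMpos.le)]
  have hbd : ∀ x y : ℝ, x ^ 2 ≤ C → y ^ 2 ≤ C ^ 2 → (M⁻¹ * x) ^ 2 + (M⁻¹ * y) ^ 2 ≤ 1 := by
    intro x y hx hy
    rw [mul_pow, mul_pow, ← mul_add, inv_pow, inv_mul_le_iff₀ (by positivity)]
    linarith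
  have hlC : ∀ i, l i ^ 2 ≤ C ^ 2 := fun i => by
    have := (hl i).2
    have := hl0 i
    nlinarith
  refine finite_of_separated2 hT0 hT2 (fun i => ((M⁻¹ : ℝ) : ℂ) • v i)
    (fun i => ((M⁻¹ : ℝ) : ℂ) • g i) ?_ ?_ (M⁻¹ * Real.sqrt c) (by positivity) ?_
  · intro i
    refine ⟨V0.smul_mem _ (h6 i), ((M⁻¹ : ℝ) : ℂ) • F i, ?_, ?_⟩
    · exact Γ0.smul_mem ((M⁻¹ : ℝ) : ℂ) (h2 i)
    · rw [norm_smul, norm_smul, hMn]
      apply hbd
      · have := nvg i
        have := (hl i).2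
        nlinarith [sq_nonneg ‖g i‖]
      · have := nFk i
        have := hlC i
        nlinarith [sq_nonneg ‖k i‖]
  · intro i
    refine ⟨V2.smul_mem _ (h7 i), ((M⁻¹ : ℝ) : ℂ) • k i, ?_, ?_⟩
    · intro q hq
      have := h4 i q hq
      simp only at this ⊢
      rw [inner_smul_right, inner_smul_right, this]
    · rw [norm_smul, norm_smul, hMn]
      apply hbd
      · have := nvg i
        have := (hl i).2
        nlinarith [sq_nonneg ‖v i‖]
      · have := nFk i
        have := hlC i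
        nlinarith [sq_nonneg ‖F i‖]
  · intro i j hij
    by_contra hcon
    push Not at hcon
    obtain ⟨c1, c2⟩ := hcon
    rw [dist_eq_norm, ← smul_sub, norm_smul, hMn] at c1 c2
    have hMi : 0 < M⁻¹ := inv_pos.2 hMpos
    have d1 : ‖v i - v j‖ < Real.sqrt c := lt_of_mul_lt_mul_left c1 hMi.le
    have d2 : ‖g i - g j‖ < Real.sqrt c := lt_of_mul_lt_mul_left c2 hMi.le
    have s1 : Real.sqrt c ^ 2 = c := Real.sq_sqrt hc.le
    have s0 : 0 < Real.sqrt c := Real.sqrt_pos.2 hc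
    have e1 : ‖v i - v j‖ ^ 2 < c := by
      have := norm_nonneg (v i - v j)
      nlinarith
    have e2 : ‖g i - g j‖ ^ 2 < c := by
      have := norm_nonneg (g i - g j)
      nlinarith
    have := sep i j hij
    have := (hl i).1
    have := (hl j).1
    linarith

end Pool.Agent.H903HT
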